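import Pool.Agent.J4.H9.SC.Thm

/-!
# Stark's conjecture for the narrow ray class fields of a complex cubic field: from conductors with many
# prime factors to all conductors

`Qbar` is an algebraic closure of `ℚ` and `ι : Qbar → ℂ` an embedding. All fields are subfields of `Qbar`,
and Galois groups are described by the automorphisms `GQ` of `Qbar`.

* `K` is a complex cubic field, `ι` gives its complex place; a modulus is a nonzero ideal `𝔣 ≠ 𝓞 K`.
* `H 𝔣 = K(𝔣)` is the narrow ray class field, for all moduli `𝔣`; `art` gives the Artin symbols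
  (`RayClassFields`). The partial zeta functions have their continuation (`Continuation`).
* `StarkCubicUpTo n ι K L 𝔣 art` is Q1 for the abelian extension `L/K` and the set `S` of the infinite places
  and the primes dividing `𝔣`, up to the exponent `n`: `n = 1`, `L = H 𝔣` is Q1.
* `ManyPrimes K 𝔟 N 𝔣`: `𝔣` has at least `N` prime factors not dividing `𝔟`.
* `PrimaryStark`: for every prime `ℓ` and all intermediate fields `L` with `[K(𝔣) : L]` prime to `ℓ` and
  `Gal(L/K)` the product of an `ℓ`-group and a cyclic group, Q1 for `L` up to an exponent prime to `ℓ`.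
* `TwoStark`: Q1 for the `2`-extensions of `K` in `K(𝔣)`, up to odd exponents.
* `DoubleZero`: the zeta function of `K` without Euler factors at `𝔣` has a double zero at `0`.

(1) Q1 for all moduli is equivalent to `PrimaryStark` for the moduli with at least `N` prime factors not
dividing `𝔟` and `TwoStark` for the others. (2) If `PrimaryStark` holds for the multiples of a given
modulus `𝔣` with at least `N` prime factors not dividing `𝔟`, then Q1 for `𝔣` is equivalent to `TwoStark`
for `𝔣`, and Q1 holds for `𝔣` up to the exponent `2 ^ N`.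

Proof. For a prime `𝔮` outside `S` the unit for `S ∪ {𝔮}` is the unit for `S` to the power
`1 - Frob(𝔮)⁻¹`. The Frobenius automorphisms of the primes not dividing `𝔣𝔟` generate the group, so
the differences `1 - g` are available for all `g`. Complex conjugation `c` above the real place of `K`
inverts the units, so `2 = (1 - c) + (1 + c)` gives the square; with the `2`-extensions this gives the unit
itself. The primary parts are put together by norm relations in the group ring.
-/

set_option autoImplicit false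

namespace Pool.Agent.Results.MP_d9f52e_nt.ManyPrimeFactors

open NumberField Pool.Agent.J4.H9.SC
open Pool.Agent.K4H33.SK (Qbar GQ)
open Pool.Agent.K4H33.SK.Stmt (Sub Ideals)

theorem result (ι : Qbar →+* ℂ) (K : Sub) [NumberField K] (hK : IsComplexCubic ι K)
    (H : Ideals K → Sub) (art : Ideals K → GQ) (hH : RayClassFields K H art)
    (hZ : Continuation K H art) (N : ℕ) (𝔟 : Ideals K) (h𝔟 : 𝔟 ≠ ⊥) :
    -- (1) all moduli
    ((∀ 𝔣, IsModulus K 𝔣 → StarkCubicUpTo 1 ι K (H 𝔣) 𝔣 art) ↔
      (∀ 𝔣, IsModulus K 𝔣 → ManyPrimes K 𝔟 N 𝔣 → PrimaryStark ι K (H 𝔣) 𝔣 art) ∧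
      ∀ 𝔣, IsModulus K 𝔣 → ¬ ManyPrimes K 𝔟 N 𝔣 → TwoStark ι K (H 𝔣) 𝔣 art) ∧
    -- (2) one modulus
    ∀ 𝔣, IsModulus K 𝔣 →
      (∀ 𝔤, IsModulus K 𝔤 → 𝔤 ≤ 𝔣 → ManyPrimes K 𝔟 N 𝔤 → PrimaryStark ι K (H 𝔤) 𝔤 art) →
        (StarkCubicUpTo 1 ι K (H 𝔣) 𝔣 art ↔ TwoStark ι K (H 𝔣) 𝔣 art) ∧
        (DoubleZero K art → StarkCubicUpTo (2 ^ N) ι K (H 𝔣) 𝔣 art) :=
  ⟨main ι K hK H art hH hZ N 𝔟 h𝔟, fun 𝔣 h𝔣 h =>
    ⟨⟨twoStark_of_stark ι K hK H art hH 𝔣 h𝔣, local_main ι K hK H art hH hZ N 𝔟 h𝔟 𝔣 h𝔣 h⟩,
      fun hD => local_two ι K hK H art hH hZ hD N 𝔟 h𝔟 𝔣 h𝔣 h⟩⟩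

end Pool.Agent.Results.MP_d9f52e_nt.ManyPrimeFactors
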