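import Pool.Agent.J4.H71.CB.Last

/-!
# Stark's conjecture for narrow ray class fields of complex cubic fields

`Qbar` is an algebraic closure of `ℚ` and `ι : Qbar → ℂ` an embedding.  All fields are subfields of
`Qbar`, and Galois groups are described by the automorphisms `GQ` of `Qbar`.

* `K` is a cubic field with `ι K` not real: a complex cubic field whose complex place is given by `ι`.
* `k` is the quadratic field with `K ⊔ k` normal over `ℚ`: the imaginary quadratic field generated by
  the square root of the discriminant of `K`; `ζ` is a primitive `f`-th root of unity.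
* `𝔣` is a nonzero ideal of `K` divisible by all primes dividing `f`.
* `Criterion K f 𝔣`: every ideal `𝔞` prime to `𝔣` with `N𝔞 ≡ 1` modulo `f` has a generator congruent
  to one modulo `𝔣` and positive at the real place, or one of two more explicit conditions for fields
  `K` of class number one.
* `IsRayClassField K H 𝔣 artK`: `H` is the narrow ray class field `K(𝔣)`: the Artin map of the ideals
  prime to `𝔣` is onto the Galois group of the abelian extension `H` of `K`, and its kernel consists
  of the ideals with a generator congruent to one modulo `𝔣` and positive at the real place.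
* `FactorInput K k f 𝔪 art`: all primes which are ramified in `K ⊔ k` divide `f` and `𝔪 = (f)`; or,
  if some of them do not divide `f`, the factorization of the zeta function of `K` (Artin) on the
  coefficients prime to `f` is assumed.

The remaining input is Stark's theorem for the abelian extension `H ⊔ k` of the imaginary quadratic
field `k` (`StarkImQuad`).  The conclusion `StarkCubic` is the rank one abelian Stark conjecture, in
Tate's refined form, for `H/K`, the places of `K` which are infinite or divide `𝔣`, and the complex
place.
-/

set_option autoImplicit false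

namespace Pool.Agent.Results.MP_d9f52e_nt.RayClassFields

open NumberField IntermediateField Pool.Agent.K4H33.SK.Stmt Pool.Agent.J4.H71.CB.St
open Pool.Agent.K4H33.SK (Qbar GQ IsTorsionOrder)

theorem result (ι : Qbar →+* ℂ) (K k : Sub) [NumberField K] [NumberField k] (f : ℕ) (ζ : Qbar)
    (hF : Fields ι K k ℚ⟮ζ⟯ f ζ) (𝔪 : Ideals k) (art : Ideals k → GQ) (artK : Ideals K → GQ)
    (hart : Symbols K k f ζ 𝔪 art artK) (hA : FactorInput K k f 𝔪 art)
    (𝔣 : Ideals K) (h𝔣 : PrimesOver K f 𝔣) (hC : Criterion K f 𝔣) :
    ∃ H : Sub, H ≤ K ⊔ ℚ⟮ζ⟯ ∧ IsRayClassField K H 𝔣 artK ∧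
      (𝔣 ≤ principal K f ∨ Tame K f ∧ 𝔣 = rad K f → H = K ⊔ ℚ⟮ζ⟯) ∧
      ∀ W' W : ℕ, IsTorsionOrder (H ⊔ k) W' → StarkImQuad ι k (H ⊔ k) 𝔪 art W' →
        IsTorsionOrder H W → StarkCubic ι K H 𝔣 artK W :=
  Pool.Agent.J4.H71.CB.stark_ray' ι K k f ζ hF 𝔪 art artK hart hA 𝔣 h𝔣 hC

end Pool.Agent.Results.MP_d9f52e_nt.RayClassFields
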